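import Pool.Agent.H503R3.FR.Stmts

set_option autoImplicit false

open IsLocalRing MvPolynomial

namespace H503R3.FR.Case2H591

open H503R3.FR

theorem memTC_mul {p : ℕ} {B : Type} [CommRing B] {I : Ideal B} {z : B} (v : B)
    (h : MemTightClosure p I z) : MemTightClosure p I (v * z) := by
  obtain ⟨c, hc, e₀, he⟩ := h
  refine ⟨c, hc, e₀, fun e hee => ?_⟩
  have h1 := he e hee
  have h2 : c * (v * z) ^ p ^ e = v ^ p ^ e * (c * z ^ p ^ e) := by
    rw [mul_pow]; ring
  rw [h2]
  exact Ideal.mul_mem_left _ _ h1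

theorem mul_prod_mem {B : Type} [CommRing B] {n : ℕ} (X : Fin n → B) {a : B}
    (ha : a ∈ Ideal.span (Set.range X)) :
    a * ∏ l, X l ∈ Ideal.span (Set.range fun l => X l ^ 2) := by
  induction ha using Submodule.span_induction with
  | mem a ha =>
    obtain ⟨l, rfl⟩ := ha
    have h1 : X l * ∏ m, X m = (∏ m ∈ Finset.univ.erase l, X m) * X l ^ 2 := by
      rw [← Finset.mul_prod_erase Finset.univ X (Finset.mem_univ l)]
      ring
    rw [h1]
    exact Ideal.mul_mem_left _ _ (Ideal.subset_span ⟨l, rfl⟩)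
  | zero => simp
  | add a b _ _ ha hb =>
    rw [add_mul]
    exact Ideal.add_mem _ ha hb
  | smul c a _ ha =>
    rw [smul_eq_mul, mul_assoc]
    exact Ideal.mul_mem_left _ _ ha

theorem frob_mul {B : Type} [CommRing B] {I J : Ideal B} {s : B} (N : ℕ)
    (h : ∀ a ∈ I, a * s ∈ J) {y : B} (hy : y ∈ frobPower I N) : y * s ^ N ∈ frobPower J N := by
  unfold frobPower at hy
  induction hy using Submodule.span_induction with
  | mem a ha =>
    obtain ⟨b, hb, rfl⟩ := ha
    refine Ideal.subset_span ⟨b * s, h b hb, ?_⟩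
    simp only [mul_pow]
  | zero => simp
  | add a b _ _ ha hb =>
    rw [add_mul]
    exact Ideal.add_mem _ ha hb
  | smul c a _ ha =>
    rw [smul_eq_mul, mul_assoc]
    exact Ideal.mul_mem_left _ _ ha

theorem memTC_sq {p : ℕ} {B : Type} [CommRing B] {n : ℕ} (X : Fin n → B) {z : B}
    (h : MemTightClosure p (Ideal.span (Set.range X)) z) :
    MemTightClosure p (Ideal.span (Set.range fun l => X l ^ 2)) (z * ∏ l, X l) := by
  obtain ⟨c, hc, e₀, he⟩ := h
  refine ⟨c, hc, e₀, fun e hee => ?_⟩
  have h1 := frob_mul (p ^ e) (fun a ha => mul_prod_mem X ha) (he e hee)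
  rwa [mul_assoc, ← mul_pow] at h1

theorem taskCase2 : TaskCase2 := by
  intro hTC hScale hSFR hPar hCo hMem hRoot hKV hColon hZs hHT hHR hVertex hV2 k _ _ _ P _
    hP1 hP3 n x hx z hz
  obtain ⟨hdim, hrad⟩ := hx
  obtain ⟨x', z', v, hv, hz', hspan⟩ := hScale (R k) P n x z
  have hz2 := memTC_mul v hz
  rw [← hz', ← hspan] at hz2
  have hz3 := memTC_sq _ hz2
  have e1 : (algebraMap (R k) (Localization.AtPrime P)) z' *
      ∏ l, (algebraMap (R k) (Localization.AtPrime P)) (x' l) =
      algebraMap (R k) (Localization.AtPrime P) (z' * ∏ l, x' l) := by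
    rw [map_mul, map_prod]
  have e2 : (fun l => (algebraMap (R k) (Localization.AtPrime P)) (x' l) ^ 2) =
      fun l => (algebraMap (R k) (Localization.AtPrime P)) (x' l ^ 2) := by
    funext l; rw [map_pow]
  rw [e1, e2] at hz3
  obtain ⟨u, hu, huz⟩ := hTC hSFR k P n (fun l => x' l ^ 2) (z' * ∏ l, x' l) hz3
  obtain ⟨zs, hev, hreg, zr, hmap, hregR, hzrP, hlen⟩ := hZs hMem k P hP1 hP3
  have hn : n ≤ zs.length := by
    have h1 : (n : WithBot ℕ∞) ≤ (zs.length : WithBot ℕ∞) := hdim ▸ hlen
    exact_mod_cast h1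
  have hlen2 : zr.length = zs.length := by
    have := congrArg List.length hmap
    simpa using this
  choose y hyev hy using fun l => (hRoot k).2 (x' l : D k) (x' l).2
  have hradc : ∀ z ∈ P, ∃ u ∉ P, ∃ N : ℕ, u * z ^ N ∈ Ideal.span (Set.range x') := by
    intro z hz
    have h1 : algebraMap (R k) (Localization.AtPrime P) z ∈
        maximalIdeal (Localization.AtPrime P) := by
      rw [IsLocalization.AtPrime.to_map_mem_maximal_iff (Localization.AtPrime P) P]
      exact hz
    rw [← hrad, ← hspan] at h1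
    obtain ⟨N, hN⟩ := h1
    rw [← map_pow] at hN
    have h2 : Ideal.span (Set.range fun l => (algebraMap (R k) (Localization.AtPrime P)) (x' l)) =
        (Ideal.span (Set.range x')).map (algebraMap (R k) (Localization.AtPrime P)) := by
      rw [Ideal.map_span, ← Set.range_comp]; rfl
    rw [h2, IsLocalization.algebraMap_mem_map_algebraMap_iff P.primeCompl] at hN
    obtain ⟨m, hm, hmz⟩ := hN
    exact ⟨m, hm, N, hmz⟩
  have hH1 := hHT hKV hMem hRoot k P zs zr hev hreg hmap hzrP n x' hn hradc y hyev hy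
  obtain ⟨u', hu', huz'⟩ := hV2 hVertex hPar hCo hMem hRoot k P n x' y hyev hy hH1
    (z' * ∏ l, x' l) u hu (by simpa using huz)
  have h2 := Ideal.mem_map_of_mem (algebraMap (R k) (Localization.AtPrime P)) huz'
  have hu'' : IsUnit (algebraMap (R k) (Localization.AtPrime P) u') :=
    IsLocalization.map_units (Localization.AtPrime P) (⟨u', hu'⟩ : P.primeCompl)
  rw [Ideal.map_span, ← Set.range_comp, map_mul, Ideal.unit_mul_mem_iff_mem _ hu'', ← e1] at h2
  have e3 : ((algebraMap (R k) (Localization.AtPrime P)) ∘ fun l => x' l ^ 2) =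
      fun l => (algebraMap (R k) (Localization.AtPrime P)) (x' l) ^ 2 := by
    funext l; simp
  rw [e3] at h2
  have hchar : ∀ m : Localization.AtPrime P, m + m = 0 := by
    intro m
    have h0 : (2 : Localization.AtPrime P) = 0 := by
      have h3 : (2 : k) = 0 := CharTwo.two_eq_zero
      have h4 := congrArg (algebraMap k (R k)) h3
      rw [map_ofNat, map_zero] at h4
      have h5 := congrArg (algebraMap (R k) (Localization.AtPrime P)) h4
      rwa [map_ofNat, map_zero] at h5
    rw [← two_mul, h0, zero_mul]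
  have h4 := hColon (Localization.AtPrime P) hchar n
    (fun l => algebraMap (R k) (Localization.AtPrime P) (x' l))
    (fun e he => hHR hKV k P zr hregR hzrP n
      (fun l => algebraMap (R k) (Localization.AtPrime P) (x' l)) (hlen2 ▸ hn)
      (by rw [hspan, hrad]) e he)
    (algebraMap (R k) (Localization.AtPrime P) z') h2
  rw [hz', Ideal.unit_mul_mem_iff_mem _ hv, hspan] at h4
  exact h4

end H503R3.FR.Case2H591

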